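import Pool.Agent.R342.GP.Stm

/-! # AVG: averaging over random sets of patterns -/

open MeasureTheory Filter Topology Set TopologicalSpace
open scoped ENNReal

namespace Pool.Agent.R342.GP

universe v

namespace AVG

variable {α : Type} [DecidableEq α]

/-- weights -/
noncomputable def W (R : Finset α) (p : ℝ) (A : Finset α) : ℝ := p ^ A.card * (1 - p) ^ (R \ A).card

theorem W_sum (R : Finset α) (p : ℝ) : ∑ A ∈ R.powerset, W R p A = 1 := by
  have h := Finset.prod_add (fun _ : α => p) (fun _ => 1 - p) R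
  simp only [Finset.prod_const, add_sub_cancel, one_pow] at h
  exact h.symm

theorem W_nonneg (R : Finset α) {p : ℝ} (h0 : 0 ≤ p) (h1 : p ≤ 1) (A : Finset α) :
    0 ≤ W R p A := by
  have : 0 ≤ 1 - p := by linarith
  unfold W
  positivity

theorem W_mem (R : Finset α) (p : ℝ) {s : α} (hs : s ∈ R) :
    ∑ A ∈ R.powerset, W R p A * (if s ∈ A then 1 else 0) = p := by
  have h := Finset.prod_add (fun _ : α => p) (fun i => if i = s then 0 else 1 - p) R
  have e1 : ∏ i ∈ R, (p + if i = s then 0 else 1 - p) = p := by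
    rw [← Finset.mul_prod_erase R _ hs]
    have h2 : ∏ i ∈ R.erase s, (p + if i = s then 0 else 1 - p) = 1 :=
      Finset.prod_eq_one fun i hi => by
        rw [if_neg (Finset.ne_of_mem_erase hi)]
        ring
    rw [h2]
    simp
  rw [e1] at h
  refine Eq.trans ?_ h.symm
  refine Finset.sum_congr rfl fun A hA => ?_
  rw [Finset.prod_const]
  by_cases hsA : s ∈ A
  · rw [if_pos hsA, mul_one]
    unfold W
    congr 1
    rw [← Finset.prod_const]
    refine Finset.prod_congr rfl fun i hi => ?_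
    rw [if_neg]
    rintro rfl
    exact (Finset.mem_sdiff.1 hi).2 hsA
  · have h3 : ∏ i ∈ R \ A, (if i = s then 0 else 1 - p) = 0 :=
      Finset.prod_eq_zero (Finset.mem_sdiff.2 ⟨hs, hsA⟩) (if_pos rfl)
    rw [if_neg hsA, mul_zero, h3, mul_zero]

theorem W_dis (R : Finset α) (p : ℝ) {Q : Finset α} (hQ : Q ⊆ R) :
    ∑ A ∈ R.powerset, W R p A * (if Disjoint Q A then 1 else 0) = (1 - p) ^ Q.card := by
  have h := Finset.prod_add (fun i : α => if i ∈ Q then 0 else p) (fun _ => 1 - p) R
  have e1 : ∏ i ∈ R, ((if i ∈ Q then 0 else p) + (1 - p)) = (1 - p) ^ Q.card := by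
    have e2 : ∀ i ∈ R, ((if i ∈ Q then 0 else p) + (1 - p)) = if i ∈ Q then 1 - p else 1 := by
      intro i _
      split_ifs
      · ring
      · ring
    rw [Finset.prod_congr rfl e2, Finset.prod_ite, Finset.prod_const, Finset.prod_const_one,
      mul_one, Finset.filter_mem_eq_inter, Finset.inter_eq_right.2 hQ]
  rw [e1] at h
  refine Eq.trans ?_ h.symm
  refine Finset.sum_congr rfl fun A hA => ?_
  rw [Finset.prod_const]
  by_cases hd : Disjoint Q A
  · rw [if_pos hd, mul_one]
    unfold W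
    congr 1
    rw [← Finset.prod_const]
    refine Finset.prod_congr rfl fun i hi => ?_
    rw [if_neg]
    intro h2
    exact (Finset.disjoint_left.1 hd) h2 hi
  · rw [if_neg hd, mul_zero]
    obtain ⟨i, hi1, hi2⟩ := Finset.not_disjoint_iff.1 hd
    have h3 : ∏ i ∈ A, (if i ∈ Q then 0 else p) = 0 :=
      Finset.prod_eq_zero hi2 (if_pos hi1)
    rw [h3, zero_mul]

end AVG

open AVG

theorem avg : S_AVG.{v} := by
  classical
  intro X _ μ _ R P Q D m r hD hP hQ hPR hQR hQD hr
  obtain ⟨p, hp⟩ : ∃ p : ℝ, p = 1 / (r : ℝ) := ⟨_, rfl⟩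
  have hr' : (1 : ℝ) ≤ r := by exact_mod_cast hr
  have hp0 : 0 ≤ p := by rw [hp]; positivity
  have hp1 : p ≤ 1 := by
    rw [hp, div_le_one (by linarith)]
    exact hr'
  rw [← hp]
  have m1 : ∀ A : Finset (Finset ℕ), MeasurableSet {x | P x ∈ A} := by
    intro A
    have e : {x | P x ∈ A} = ⋃ s ∈ A, {x | P x = s} := by
      ext x
      simp
    rw [e]
    exact Finset.measurableSet_biUnion _ fun s _ => hP s
  have m2 : ∀ A : Finset (Finset ℕ), MeasurableSet {x | x ∈ D ∧ Disjoint (Q x) A} := by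
    intro A
    have e : {x | x ∈ D ∧ Disjoint (Q x) A} = D ∩ ⋂ s ∈ A, {x | s ∈ Q x}ᶜ := by
      ext x
      simp only [mem_ofPred_eq, mem_inter_iff, mem_iInter, mem_compl_iff, Finset.disjoint_right]
    rw [e]
    exact hD.inter (Finset.measurableSet_biInter _ fun s _ => (hQ s).compl)
  by_contra hcon
  push Not at hcon
  -- the average
  have k1 : ∀ A : Finset (Finset ℕ), μ.real {x | P x ∈ A} = ∫ x, (if P x ∈ A then (1 : ℝ) else 0) ∂μ := by
    intro A
    rw [← integral_indicator_one (m1 A)]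
    refine integral_congr_ae (ae_of_all _ fun x => ?_)
    simp only [indicator_apply, mem_ofPred_eq, Pi.one_apply]
  have k2 : ∀ A : Finset (Finset ℕ), μ.real {x | x ∈ D ∧ Disjoint (Q x) A} =
      ∫ x, (if x ∈ D ∧ Disjoint (Q x) A then (1 : ℝ) else 0) ∂μ := by
    intro A
    rw [← integral_indicator_one (m2 A)]
    refine integral_congr_ae (ae_of_all _ fun x => ?_)
    simp only [indicator_apply, mem_ofPred_eq, Pi.one_apply]
  have i1 : ∀ A : Finset (Finset ℕ),
      Integrable (fun x => (if P x ∈ A then (1 : ℝ) else 0)) μ := by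
    intro A
    have h3 : Integrable ({x | P x ∈ A}.indicator fun _ => (1 : ℝ)) μ :=
      (integrable_const 1).indicator (m1 A)
    refine h3.congr (ae_of_all _ fun x => ?_)
    simp only [indicator_apply, mem_ofPred_eq]
  have i2 : ∀ A : Finset (Finset ℕ),
      Integrable (fun x => (if x ∈ D ∧ Disjoint (Q x) A then (1 : ℝ) else 0)) μ := by
    intro A
    have h3 : Integrable ({x | x ∈ D ∧ Disjoint (Q x) A}.indicator fun _ => (1 : ℝ)) μ :=
      (integrable_const 1).indicator (m2 A)
    refine h3.congr (ae_of_all _ fun x => ?_)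
    simp only [indicator_apply, mem_ofPred_eq]
  have s1 : ∑ A ∈ R.powerset, W R p A * μ.real {x | P x ∈ A} = p := by
    simp only [k1, ← integral_const_mul]
    rw [← integral_finsetSum _ fun A _ => (i1 A).const_mul _]
    have : ∀ x, ∑ A ∈ R.powerset, W R p A * (if P x ∈ A then (1 : ℝ) else 0) = p := fun x =>
      W_mem R p (hPR x)
    simp only [this]
    simp
  have s2 : ∑ A ∈ R.powerset, W R p A * μ.real {x | x ∈ D ∧ Disjoint (Q x) A} ≤
      (1 - p) ^ m := by
    simp only [k2, ← integral_const_mul]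
    rw [← integral_finsetSum _ fun A _ => (i2 A).const_mul _]
    have : ∀ x, ∑ A ∈ R.powerset, W R p A * (if x ∈ D ∧ Disjoint (Q x) A then (1 : ℝ) else 0) ≤
        (1 - p) ^ m := by
      intro x
      by_cases hx : x ∈ D
      · simp only [hx, true_and]
        rw [W_dis R p (hQR x)]
        exact pow_le_pow_of_le_one (by linarith) (by linarith) (hQD x hx)
      · simp only [hx, false_and, if_false, mul_zero, Finset.sum_const_zero]
        have : 0 ≤ 1 - p := by linarith
        positivity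
    calc ∫ x, ∑ A ∈ R.powerset, W R p A * (if x ∈ D ∧ Disjoint (Q x) A then (1 : ℝ) else 0) ∂μ
        ≤ ∫ _, (1 - p) ^ m ∂μ := by
          refine integral_mono ?_ (integrable_const _) this
          exact integrable_finsetSum _ fun A _ => (i2 A).const_mul _
      _ = (1 - p) ^ m := by simp
  have s3 : ∑ A ∈ R.powerset, W R p A * (p + (1 - p) ^ m) = p + (1 - p) ^ m := by
    rw [← Finset.sum_mul, W_sum, one_mul]
  have s4 : ∑ A ∈ R.powerset, W R p A * (p + (1 - p) ^ m) <
      ∑ A ∈ R.powerset, W R p A * (μ.real {x | P x ∈ A} +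
        μ.real {x | x ∈ D ∧ Disjoint (Q x) A}) := by
    obtain ⟨A, hA, hA0⟩ := Finset.exists_ne_zero_of_sum_ne_zero (s := R.powerset)
      (f := fun A => W R p A) (by rw [W_sum]; exact one_ne_zero)
    refine Finset.sum_lt_sum (fun B _ => mul_le_mul_of_nonneg_left (hcon B).le
      (W_nonneg R hp0 hp1 B)) ⟨A, hA, ?_⟩
    exact mul_lt_mul_of_pos_left (hcon A) (lt_of_le_of_ne (W_nonneg R hp0 hp1 A) (Ne.symm hA0))
  have s5 : ∑ A ∈ R.powerset, W R p A * (μ.real {x | P x ∈ A} +
      μ.real {x | x ∈ D ∧ Disjoint (Q x) A}) =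
      ∑ A ∈ R.powerset, W R p A * μ.real {x | P x ∈ A} +
      ∑ A ∈ R.powerset, W R p A * μ.real {x | x ∈ D ∧ Disjoint (Q x) A} := by
    rw [← Finset.sum_add_distrib]
    exact Finset.sum_congr rfl fun A _ => mul_add _ _ _
  rw [s5, s3, s1] at s4
  linarith

end Pool.Agent.R342.GP
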