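import Mathlib

/-!
# MP_955413_lc: definitions and exact statements of the pieces
-/

open MeasureTheory Filter Topology Set TopologicalSpace
open scoped ENNReal

namespace Pool.Agent.R342.GP

universe u v w

/-- Indicator function of a clopen set, as a continuous function. -/
noncomputable def ind {K : Type u} [TopologicalSpace K] (U : Clopens K) : C(K, ℝ) :=
  ⟨Set.indicator (U : Set K) (fun _ => (1 : ℝ)),
    continuous_const.indicator (by simp [U.isClopen.frontier_eq])⟩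

/-- `C(K)` has the positive Grothendieck property: every weak* convergent sequence of non-negative
functionals (non-negative Radon measures on `K`) converges weakly. -/
def PosGrothendieck (K : Type u) [TopologicalSpace K] [CompactSpace K] : Prop :=
  ∀ (L : ℕ → StrongDual ℝ C(K, ℝ)) (L₀ : StrongDual ℝ C(K, ℝ)),
    (∀ n, ∀ h : C(K, ℝ), 0 ≤ h → 0 ≤ L n h) →
    (∀ h, Tendsto (fun n => L n h) atTop (𝓝 (L₀ h))) →
    ∀ Ψ : StrongDual ℝ (StrongDual ℝ C(K, ℝ)), Tendsto (fun n => Ψ (L n)) atTop (𝓝 (Ψ L₀))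

/-- EXT: a non-negative finitely additive function on the clopen algebra extends to a non-negative
functional on `C(K)`. -/
def S_EXT : Prop :=
  ∀ (K : Type u) [TopologicalSpace K] [CompactSpace K] [T2Space K] [TotallyDisconnectedSpace K]
    (ν : Clopens K → ℝ), (∀ U, 0 ≤ ν U) → (∀ U V, Disjoint U V → ν (U ⊔ V) = ν U + ν V) →
    ∃ L : StrongDual ℝ C(K, ℝ), (∀ h : C(K, ℝ), 0 ≤ h → 0 ≤ L h) ∧ ∀ U, L (ind U) = ν U

/-- INEQ: the inequality behind EXT. -/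
def S_INEQ : Prop :=
  ∀ (K : Type u) [TopologicalSpace K] [CompactSpace K] [T2Space K] [TotallyDisconnectedSpace K]
    (ν : Clopens K → ℝ), (∀ U, 0 ≤ ν U) → (∀ U V, Disjoint U V → ν (U ⊔ V) = ν U + ν V) →
    ∀ (s : Finset (Clopens K)) (v : Clopens K → ℝ),
      |∑ a ∈ s, v a * ν a| ≤ ν ⊤ * ‖∑ a ∈ s, v a • ind a‖

/-- CONV: weak* convergence can be tested on clopen sets. -/
def S_CONV : Prop :=
  ∀ (K : Type u) [TopologicalSpace K] [CompactSpace K] [T2Space K] [TotallyDisconnectedSpace K]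
    (L : ℕ → StrongDual ℝ C(K, ℝ)) (L₀ : StrongDual ℝ C(K, ℝ)),
    (∀ n, ∀ h : C(K, ℝ), 0 ≤ h → 0 ≤ L n h) → (∀ h : C(K, ℝ), 0 ≤ h → 0 ≤ L₀ h) →
    (∀ U : Clopens K, Tendsto (fun n => L n (ind U)) atTop (𝓝 (L₀ (ind U)))) →
    ∀ h : C(K, ℝ), Tendsto (fun n => L n h) atTop (𝓝 (L₀ h))

/-- PSI: a functional on the dual that is a limit of evaluations at indicators. -/
def S_PSI : Prop :=
  ∀ (K : Type u) [TopologicalSpace K] [CompactSpace K] (c : ℕ → Clopens K),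
    ∃ Ψ : StrongDual ℝ (StrongDual ℝ C(K, ℝ)), ∀ (L : StrongDual ℝ C(K, ℝ)) (r : ℝ),
      (∀ᶠ J in atTop, r ≤ L (ind (c J))) → r ≤ Ψ L

open Classical in
/-- The pattern of length `k` of the point `x` with respect to the sets `G 0, G 1, …`. -/
noncomputable def pat {X : Type v} (k : ℕ) (G : ℕ → Set X) (x : X) : Finset ℕ :=
  (Finset.range k).filter (fun i => x ∈ G i)

/-- AVG: averaging over random sets of patterns. -/
def S_AVG : Prop :=
  ∀ (X : Type v) [MeasurableSpace X] (μ : Measure X) [IsProbabilityMeasure μ]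
    (R : Finset (Finset ℕ)) (P : X → Finset ℕ) (Q : X → Finset (Finset ℕ)) (D : Set X) (m r : ℕ),
    MeasurableSet D → (∀ s, MeasurableSet {x | P x = s}) → (∀ s, MeasurableSet {x | s ∈ Q x}) →
    (∀ x, P x ∈ R) → (∀ x, Q x ⊆ R) → (∀ x ∈ D, m ≤ (Q x).card) → 0 < r →
    ∃ A : Finset (Finset ℕ), (μ {x | P x ∈ A}).toReal + (μ {x | x ∈ D ∧ Disjoint (Q x) A}).toReal ≤
      1 / (r : ℝ) + (1 - 1 / (r : ℝ)) ^ m

/-- KL: small probability for the limit, large probability for the sequence. -/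
def S_KL : Prop :=
  ∀ (X : Type v) [MeasurableSpace X] (μ : Measure X) [IsProbabilityMeasure μ]
    (F : ℕ → ℕ → Set X) (G : ℕ → Set X) (E : Set X),
    (∀ n i, MeasurableSet (F n i)) → (∀ i, MeasurableSet (G i)) → MeasurableSet E →
    (∀ x ∈ E, ∀ i, ∀ᶠ n in atTop, (x ∈ F n i ↔ x ∈ G i)) →
    (∀ x ∈ E, ∃ᶠ n in atTop, ∃ i, ¬ (x ∈ F n i ↔ x ∈ G i)) →
    ∀ (j : ℕ) (δ : ℝ≥0∞), 0 < δ → ∃ (k : ℕ) (A : Finset (Finset ℕ)),
      μ {x | pat k G x ∈ A} ≤ δ ∧ μ {x | x ∈ E ∧ ∀ n, j ≤ n → pat k (F n) x ∉ A} ≤ δ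

/-- CORE: the theorem in terms of representatives. `S n a`, `T a` are measurable sets representing
the values of the homomorphisms. -/
def S_CORE : Prop :=
  ∀ (K : Type u) [TopologicalSpace K] [CompactSpace K] [T2Space K] [TotallyDisconnectedSpace K],
    PosGrothendieck K →
    ∀ (X : Type v) [MeasurableSpace X] (μ : Measure X) [IsProbabilityMeasure μ]
    (S : ℕ → Clopens K → Set X) (T : Clopens K → Set X),
    (∀ n a, MeasurableSet (S n a)) → (∀ a, MeasurableSet (T a)) →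
    (∀ n, S n ⊤ =ᵐ[μ] univ) → (∀ n a b, S n (a ⊓ b) =ᵐ[μ] (S n a ∩ S n b : Set X)) →
    (∀ n a, S n aᶜ =ᵐ[μ] ((S n a)ᶜ : Set X)) →
    (T ⊤ =ᵐ[μ] univ) → (∀ a b, T (a ⊓ b) =ᵐ[μ] (T a ∩ T b : Set X)) →
    (∀ a, T aᶜ =ᵐ[μ] ((T a)ᶜ : Set X)) →
    (∀ a, ∀ᵐ x ∂μ, ∀ᶠ n in atTop, (x ∈ S n a ↔ x ∈ T a)) →
    ∀ ε : ℝ≥0∞, 0 < ε → ∀ᶠ n in atTop, ∀ a, μ (symmDiff (S n a) (T a)) ≤ ε

end Pool.Agent.R342.GP
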