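import Mathlib
import Pool.Agent.R342.GP.Stm

/-!
# CONV: weak* convergence of positive functionals can be tested on clopen sets
-/

open MeasureTheory Filter Topology Set TopologicalSpace
open scoped ENNReal

namespace Pool.Agent.R342.GP

universe u

namespace CONV

variable {K : Type u} [TopologicalSpace K]

theorem ind_apply (U : Clopens K) (x : K) :
    ind U x = Set.indicator (U : Set K) (fun _ => (1 : ℝ)) x := rfl

theorem ind_top : ind (⊤ : Clopens K) = 1 := by
  ext x
  rw [ind_apply]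
  simp

theorem ind_mul (U V : Clopens K) : ind U * ind V = ind (U ⊓ V) := by
  ext x
  rw [ContinuousMap.mul_apply, ind_apply, ind_apply, ind_apply, Clopens.coe_inf]
  by_cases hU : x ∈ (U : Set K) <;> by_cases hV : x ∈ (V : Set K) <;> simp [hU, hV]

/-- The indicators form a monoid. -/
noncomputable def mon (K : Type u) [TopologicalSpace K] : Submonoid C(K, ℝ) where
  carrier := Set.range (ind : Clopens K → C(K, ℝ))
  mul_mem' := by
    rintro _ _ ⟨U, rfl⟩ ⟨V, rfl⟩
    exact ⟨U ⊓ V, (ind_mul U V).symm⟩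
  one_mem' := ⟨⊤, ind_top⟩

theorem adjoin_eq : Subalgebra.toSubmodule (Algebra.adjoin ℝ (Set.range (ind : Clopens K → C(K, ℝ))))
    = Submodule.span ℝ (Set.range (ind : Clopens K → C(K, ℝ))) := by
  rw [Algebra.adjoin_eq_span]
  have h : (Submonoid.closure (Set.range (ind : Clopens K → C(K, ℝ)))) = mon K :=
    Submonoid.closure_eq (mon K)
  rw [h]
  rfl

theorem bound [CompactSpace K] (L : StrongDual ℝ C(K, ℝ))
    (hL : ∀ h : C(K, ℝ), 0 ≤ h → 0 ≤ L h) (h : C(K, ℝ)) : |L h| ≤ ‖h‖ * L 1 := by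
  have h1 : 0 ≤ ‖h‖ • (1 : C(K, ℝ)) - h := by
    intro x
    have := (abs_le.mp (h.norm_coe_le_norm x)).2
    simpa using this
  have h2 : 0 ≤ ‖h‖ • (1 : C(K, ℝ)) + h := by
    intro x
    have := (abs_le.mp (h.norm_coe_le_norm x)).1
    have h3 : 0 ≤ ‖h‖ + h x := by linarith
    simpa using h3
  have h3 := hL _ h1
  have h4 := hL _ h2
  rw [map_sub, map_smul, smul_eq_mul] at h3
  rw [map_add, map_smul, smul_eq_mul] at h4
  rw [abs_le]
  constructor <;> linarith

end CONV

open CONV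

/-- CONV. -/
theorem conv : S_CONV.{u} := by
  intro K _ _ _ _ L L₀ hL hL0 hU h
  -- uniform bound
  have h1 : Tendsto (fun n => L n 1) atTop (𝓝 (L₀ 1)) := by
    have := hU ⊤
    rwa [ind_top] at this
  obtain ⟨C, hC⟩ : ∃ C : ℝ, 0 < C ∧ (∀ n, L n 1 ≤ C) ∧ L₀ 1 ≤ C := by
    obtain ⟨C, hC⟩ := h1.bddAbove_range
    refine ⟨max (max C (L₀ 1)) 1, by positivity, fun n => ?_, ?_⟩
    · exact (hC ⟨n, rfl⟩).trans ((le_max_left _ _).trans (le_max_left _ _))
    · exact (le_max_right _ _).trans (le_max_left _ _)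
  obtain ⟨hC0, hC1, hC2⟩ := hC
  -- convergence on the span
  have hspan : ∀ a ∈ Submodule.span ℝ (Set.range (ind : Clopens K → C(K, ℝ))),
      Tendsto (fun n => L n a) atTop (𝓝 (L₀ a)) := by
    intro a ha
    induction ha using Submodule.span_induction with
    | mem x hx =>
      obtain ⟨U, rfl⟩ := hx
      exact hU U
    | zero => simp
    | add x y _ _ hx hy =>
      simp only [map_add]
      exact hx.add hy
    | smul c x _ hx =>
      simp only [map_smul, smul_eq_mul]
      exact hx.const_mul c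
  -- density
  have hdense : (Algebra.adjoin ℝ (Set.range (ind : Clopens K → C(K, ℝ)))).topologicalClosure = ⊤ := by
    apply ContinuousMap.subalgebra_topologicalClosure_eq_top_of_separatesPoints
    intro x y hxy
    have : TotallySeparatedSpace K := inferInstance
    obtain ⟨U, hU1, hU2, hU3⟩ := exists_isClopen_of_totally_separated hxy
    refine ⟨_, ⟨ind ⟨U, hU1⟩, Algebra.subset_adjoin ⟨_, rfl⟩, rfl⟩, ?_⟩
    change ind ⟨U, hU1⟩ x ≠ ind ⟨U, hU1⟩ y
    rw [ind_apply, ind_apply]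
    have h2 : x ∈ ((⟨U, hU1⟩ : Clopens K) : Set K) := hU2
    have h3 : y ∉ ((⟨U, hU1⟩ : Clopens K) : Set K) := hU3
    rw [Set.indicator_of_mem h2, Set.indicator_of_notMem h3]
    norm_num
  have hh : h ∈ closure ((Algebra.adjoin ℝ (Set.range (ind : Clopens K → C(K, ℝ)))) : Set C(K, ℝ)) := by
    have h2 : h ∈ (Algebra.adjoin ℝ
        (Set.range (ind : Clopens K → C(K, ℝ)))).topologicalClosure := by
      rw [hdense]; trivial
    exact h2
  rw [Metric.tendsto_atTop]
  intro ε hε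
  obtain ⟨a, ha, hda⟩ := Metric.mem_closure_iff.mp hh (ε / (4 * C)) (by positivity)
  rw [dist_eq_norm] at hda
  have ha' : a ∈ Submodule.span ℝ (Set.range (ind : Clopens K → C(K, ℝ))) := by
    rw [← adjoin_eq]
    exact ha
  obtain ⟨N, hN⟩ := Metric.tendsto_atTop.mp (hspan a ha') (ε / 4) (by positivity)
  refine ⟨N, fun n hn => ?_⟩
  have h2 := hN n hn
  rw [Real.dist_eq] at h2 ⊢
  have hd : ‖h - a‖ * C ≤ ε / 4 := by
    have h3 : ‖h - a‖ * C ≤ ε / (4 * C) * C := mul_le_mul_of_nonneg_right hda.le hC0.le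
    have h4 : ε / (4 * C) * C = ε / 4 := by field_simp
    linarith
  have h3 : |L n (h - a)| ≤ ε / 4 :=
    (bound (L n) (hL n) (h - a)).trans
      ((mul_le_mul_of_nonneg_left (hC1 n) (norm_nonneg _)).trans hd)
  have h4 : |L₀ (h - a)| ≤ ε / 4 :=
    (bound L₀ hL0 (h - a)).trans
      ((mul_le_mul_of_nonneg_left hC2 (norm_nonneg _)).trans hd)
  have h5 : L n h - L₀ h = L n (h - a) + (L n a - L₀ a) - L₀ (h - a) := by
    rw [map_sub, map_sub]; ring
  rw [h5]
  have h6 := abs_le.mp h3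
  have h7 := abs_le.mp h4
  have h8 := abs_lt.mp h2
  rw [abs_lt]
  constructor <;> linarith [h6.1, h6.2, h7.1, h7.2, h8.1, h8.2]

end Pool.Agent.R342.GP
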