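import Mathlib
import Pool.Agent.R342.GP.Stm

open MeasureTheory Filter Topology Set TopologicalSpace
open scoped ENNReal

namespace Pool.Agent.R342.GP

universe u v w

/-- Representatives of a Boolean homomorphism into the measure algebra. -/
structure IsHom {B : Type u} [BooleanAlgebra B] {X : Type v} [MeasurableSpace X]
    (μ : Measure X) (R : B → Set X) : Prop where
  meas : ∀ a, MeasurableSet (R a)
  top : ∀ᵐ x ∂μ, x ∈ R ⊤
  inf : ∀ a b, ∀ᵐ x ∂μ, (x ∈ R (a ⊓ b) ↔ x ∈ R a ∧ x ∈ R b)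
  compl : ∀ a, ∀ᵐ x ∂μ, (x ∈ R aᶜ ↔ x ∉ R a)

namespace IsHom

variable {B : Type u} [BooleanAlgebra B] {X : Type v} [MeasurableSpace X]
    {μ : Measure X} {R : B → Set X}

theorem sup (h : IsHom μ R) (a b : B) : ∀ᵐ x ∂μ, (x ∈ R (a ⊔ b) ↔ x ∈ R a ∨ x ∈ R b) := by
  have e : a ⊔ b = (aᶜ ⊓ bᶜ)ᶜ := by simp
  rw [e]
  filter_upwards [h.compl (aᶜ ⊓ bᶜ), h.inf aᶜ bᶜ, h.compl a, h.compl b] with x h1 h2 h3 h4
  rw [h1, h2, h3, h4]
  tauto

theorem bot (h : IsHom μ R) : ∀ᵐ x ∂μ, x ∉ R ⊥ := by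
  have e : (⊥ : B) = (⊤ : B)ᶜ := by simp
  rw [e]
  filter_upwards [h.compl ⊤, h.top] with x h1 h2
  rw [h1]
  tauto

theorem mono (h : IsHom μ R) {a b : B} (hab : a ≤ b) : ∀ᵐ x ∂μ, (x ∈ R a → x ∈ R b) := by
  have e : a ⊓ b = a := inf_eq_left.2 hab
  filter_upwards [h.inf a b] with x h1 h2
  rw [e] at h1
  exact (h1.1 h2).2

theorem disj (h : IsHom μ R) {a b : B} (hab : Disjoint a b) :
    ∀ᵐ x ∂μ, ¬ (x ∈ R a ∧ x ∈ R b) := by
  have e : a ⊓ b = ⊥ := hab.eq_bot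
  filter_upwards [h.inf a b, h.bot] with x h1 h2 h3
  rw [e] at h1
  exact h2 (h1.2 h3)

end IsHom

open Classical in
theorem pat_succ {X : Type v} (k : ℕ) (G : ℕ → Set X) (x : X) :
    pat (k + 1) G x = if x ∈ G k then insert k (pat k G x) else pat k G x := by
  unfold pat
  rw [Finset.range_add_one, Finset.filter_insert]

theorem pat_clopen {B : Type u} [BooleanAlgebra B] {X : Type v} [MeasurableSpace X]
    (μ : Measure X) (a : ℕ → B) :
    ∀ (k : ℕ) (A : Finset (Finset ℕ)), ∃ b : B, ∀ (R : B → Set X), IsHom μ R →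
      ∀ᵐ x ∂μ, (x ∈ R b ↔ pat k (fun i => R (a i)) x ∈ A) := by
  classical
  intro k
  induction k with
  | zero =>
    intro A
    by_cases h : (∅ : Finset ℕ) ∈ A
    · refine ⟨⊤, fun R hR => ?_⟩
      filter_upwards [hR.top] with x hx
      simp [pat, h, hx]
    · refine ⟨⊥, fun R hR => ?_⟩
      filter_upwards [hR.bot] with x hx
      simp [pat, h, hx]
  | succ k ih =>
    intro A
    obtain ⟨b1, h1⟩ := ih ((Finset.range k).powerset.filter (fun t => insert k t ∈ A))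
    obtain ⟨b2, h2⟩ := ih A
    refine ⟨(a k ⊓ b1) ⊔ ((a k)ᶜ ⊓ b2), fun R hR => ?_⟩
    filter_upwards [h1 R hR, h2 R hR, hR.sup (a k ⊓ b1) ((a k)ᶜ ⊓ b2), hR.inf (a k) b1,
      hR.inf (a k)ᶜ b2, hR.compl (a k)] with x g1 g2 g3 g4 g5 g6
    rw [g3, g4, g5, g6, g1, g2, pat_succ]
    have hs : pat k (fun i => R (a i)) x ∈ (Finset.range k).powerset := by
      rw [Finset.mem_powerset]
      exact Finset.filter_subset _ _
    rw [Finset.mem_filter]
    by_cases hx : x ∈ R (a k)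
    · simp [hx, hs]
    · simp [hx]

end Pool.Agent.R342.GP
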