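import Mathlib
import Pool.Agent.R342.GP.CoreA

open MeasureTheory Filter Topology Set TopologicalSpace
open scoped ENNReal

namespace Pool.Agent.R342.GP

universe u v w

theorem step1 (hK : S_KL.{v}) {B : Type u} [BooleanAlgebra B] {X : Type v} [MeasurableSpace X]
    (μ : Measure X) [IsProbabilityMeasure μ] (S : ℕ → B → Set X) (T : B → Set X)
    (hS : ∀ n, IsHom μ (S n)) (hT : IsHom μ T)
    (hconv : ∀ a, ∀ᵐ x ∂μ, ∀ᶠ n in atTop, (x ∈ S n a ↔ x ∈ T a)) (ε : ℝ≥0∞) (hε : 0 < ε)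
    (hnot : ∃ᶠ n in atTop, ∃ a, ε < μ (symmDiff (S n a) (T a))) :
    ∃ (b : ℕ → B) (E1 : Set X), MeasurableSet E1 ∧ 0 < μ E1 ∧ (∀ x ∈ E1, ∀ j, x ∉ T (b j)) ∧
      ∀ x ∈ E1, ∀ j, ∃ n, j ≤ n ∧ x ∈ S n (b j) := by
  classical
  have hch : ∃ a : ℕ → B, ∀ n, (∃ a', ε < μ (symmDiff (S n a') (T a'))) →
      ε < μ (symmDiff (S n (a n)) (T (a n))) := by
    refine ⟨fun n => if h : ∃ a', ε < μ (symmDiff (S n a') (T a')) then h.choose else ⊥,
      fun n h => ?_⟩
    simp only [dif_pos h]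
    exact h.choose_spec
  obtain ⟨a, ha⟩ := hch
  have hfr : ∃ᶠ n in atTop, ε < μ (symmDiff (S n (a n)) (T (a n))) := hnot.mono ha
  have mS : ∀ n i, Measurable (fun x => x ∈ S n (a i)) := fun n i => ((hS n).meas _).mem
  have mT : ∀ i, Measurable (fun x => x ∈ T (a i)) := fun i => (hT.meas _).mem
  have mI : ∀ n i, Measurable (fun x => (x ∈ S n (a i) ↔ x ∈ T (a i))) :=
    fun n i => (mS n i).iff (mT i)
  let A : ℕ → Set X := fun n => {x | ∃ i, ¬ (x ∈ S n (a i) ↔ x ∈ T (a i))}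
  have hA : ∀ n, MeasurableSet (A n) := fun n =>
    measurableSet_setOf.2 (Measurable.exists fun i => (mI n i).not)
  let U : ℕ → Set X := fun n => {x | ∃ m, n ≤ m ∧ x ∈ A m}
  have hU : ∀ n, MeasurableSet (U n) := fun n =>
    measurableSet_setOf.2 (Measurable.exists fun m =>
      (measurable_const (a := (n ≤ m))).and (hA m).mem)
  let E : Set X := {x | (∀ i, ∀ᶠ n in atTop, (x ∈ S n (a i) ↔ x ∈ T (a i))) ∧
    ∃ᶠ n in atTop, ∃ i, ¬ (x ∈ S n (a i) ↔ x ∈ T (a i))}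
  have hE : MeasurableSet E := by
    have e : E = {x | ∀ i, ∃ N, ∀ n, N ≤ n → (x ∈ S n (a i) ↔ x ∈ T (a i))} ∩ ⋂ n, U n := by
      ext x
      simp only [E, U, A, mem_setOf_eq, eventually_atTop, frequently_atTop, mem_inter_iff,
        mem_iInter, ge_iff_le]
    rw [e]
    refine MeasurableSet.inter ?_ (MeasurableSet.iInter hU)
    refine measurableSet_setOf.2 (Measurable.forall fun i => Measurable.exists fun N =>
      Measurable.forall fun n => ?_)
    exact (measurable_const (a := (N ≤ n))).imp (mI n i)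
  have hlim : Tendsto (μ ∘ U) atTop (𝓝 (μ (⋂ n, U n))) := by
    refine tendsto_measure_iInter_atTop (fun n => (hU n).nullMeasurableSet) ?_
      ⟨0, measure_ne_top _ _⟩
    intro n m hnm x hx
    obtain ⟨l, hl, hx⟩ := hx
    exact ⟨l, hnm.trans hl, hx⟩
  have hge : ε ≤ μ (⋂ n, U n) := by
    refine ge_of_tendsto' hlim fun n => ?_
    obtain ⟨m, hm, h⟩ := (frequently_atTop.1 hfr) n
    refine h.le.trans (measure_mono ?_)
    intro x hx
    refine ⟨m, hm, m, ?_⟩
    rcases hx with hx | hx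
    · exact fun h => hx.2 (h.1 hx.1)
    · exact fun h => hx.2 (h.2 hx.1)
  have hEpos : ε ≤ μ E := by
    refine hge.trans (measure_mono_ae ?_)
    have hall : ∀ᵐ x ∂μ, ∀ i, ∀ᶠ n in atTop, (x ∈ S n (a i) ↔ x ∈ T (a i)) :=
      ae_all_iff.2 fun i => hconv (a i)
    filter_upwards [hall] with x hx hxU
    refine ⟨hx, ?_⟩
    rw [frequently_atTop]
    intro n
    exact mem_iInter.1 hxU n
  have hE0 : μ E ≠ 0 := (hε.trans_le hEpos).ne'
  obtain ⟨δ, hδ, hsum⟩ := ENNReal.exists_pos_sum_of_countable' (ε := μ E / 2)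
    (by simpa using hE0) ℕ
  choose k Ak h1 h2 using fun j => hK X μ (fun n i => S n (a i)) (fun i => T (a i)) E
    (fun n i => (hS n).meas _) (fun i => hT.meas _) hE (fun x hx => hx.1) (fun x hx => hx.2)
    j (δ j) (hδ j)
  choose b hb using fun j => pat_clopen (X := X) μ a (k j) (Ak j)
  have hbT : ∀ᵐ x ∂μ, ∀ j, (x ∈ T (b j) ↔ pat (k j) (fun i => T (a i)) x ∈ Ak j) :=
    ae_all_iff.2 fun j => hb j T hT
  have hbS : ∀ᵐ x ∂μ, ∀ j n, (x ∈ S n (b j) ↔ pat (k j) (fun i => S n (a i)) x ∈ Ak j) :=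
    ae_all_iff.2 fun j => ae_all_iff.2 fun n => hb j (S n) (hS n)
  let E1 : Set X := {x | x ∈ E ∧ (∀ j, x ∉ T (b j)) ∧ ∀ j, ∃ n, j ≤ n ∧ x ∈ S n (b j)}
  have hE1 : MeasurableSet E1 := by
    refine measurableSet_setOf.2 ?_
    refine hE.mem.and ((Measurable.forall fun j => (hT.meas _).mem.not).and
      (Measurable.forall fun j => Measurable.exists fun n =>
        (measurable_const (a := (j ≤ n))).and ((hS n).meas _).mem))
  refine ⟨b, E1, hE1, ?_, fun x hx => hx.2.1, fun x hx => hx.2.2⟩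
  rw [pos_iff_ne_zero]
  intro h0
  have hle : μ E ≤ μ E1 + ∑' j, (δ j + δ j) := by
    calc μ E ≤ μ (E1 ∪ ⋃ j, ({x | pat (k j) (fun i => T (a i)) x ∈ Ak j} ∪
          {x | x ∈ E ∧ ∀ n, j ≤ n → pat (k j) (fun i => S n (a i)) x ∉ Ak j})) := by
            refine measure_mono_ae ?_
            filter_upwards [hbT, hbS] with x g1 g2 hxE
            by_cases c1 : ∀ j, x ∉ T (b j)
            · by_cases c2 : ∀ j, ∃ n, j ≤ n ∧ x ∈ S n (b j)
              · exact Or.inl ⟨hxE, c1, c2⟩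
              · push Not at c2
                obtain ⟨j, hj⟩ := c2
                refine Or.inr (mem_iUnion.2 ⟨j, Or.inr ⟨hxE, fun n hn hp => ?_⟩⟩)
                exact hj n hn ((g2 j n).2 hp)
            · push Not at c1
              obtain ⟨j, hj⟩ := c1
              exact Or.inr (mem_iUnion.2 ⟨j, Or.inl ((g1 j).1 hj)⟩)
      _ ≤ μ E1 + ∑' j, (δ j + δ j) := by
            refine (measure_union_le _ _).trans (add_le_add le_rfl ?_)
            refine (measure_iUnion_le _).trans (ENNReal.tsum_le_tsum fun j => ?_)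
            exact (measure_union_le _ _).trans (add_le_add (h1 j) (h2 j))
  rw [h0, zero_add, ENNReal.tsum_add] at hle
  have hlt : ∑' j, δ j + ∑' j, δ j < μ E / 2 + μ E / 2 := ENNReal.add_lt_add hsum hsum
  rw [ENNReal.add_halves] at hlt
  exact absurd hle (not_le.2 hlt)

end Pool.Agent.R342.GP
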