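import Mathlib
import Pool.Agent.R342.GP.CoreB

open MeasureTheory Filter Topology Set TopologicalSpace
open scoped ENNReal

namespace Pool.Agent.R342.GP

universe u v w

theorem add_aux {X : Type v} [MeasurableSpace X] (μ : Measure X) [IsProbabilityMeasure μ]
    (P Q R : Set X) (hQ : MeasurableSet Q) (hR : MeasurableSet R)
    (h1 : ∀ᵐ x ∂μ, (x ∈ P ↔ x ∈ Q ∨ x ∈ R)) (h2 : ∀ᵐ x ∂μ, ¬ (x ∈ Q ∧ x ∈ R)) :
    (μ P).toReal = (μ Q).toReal + (μ R).toReal := by
  have e1 : μ P = μ (Q ∪ R) := measure_congr (eventuallyEq_set.2 h1)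
  have e2 : AEDisjoint μ Q R := by
    show μ (Q ∩ R) = 0
    rw [measure_eq_zero_iff_ae_notMem]
    exact h2
  rw [e1, measure_union₀ hR.nullMeasurableSet e2, ENNReal.toReal_add (measure_ne_top _ _)
    (measure_ne_top _ _)]

theorem core (hX : S_EXT.{u}) (hC : S_CONV.{u}) (hP : S_PSI.{u}) (hK : S_KL.{v}) :
    S_CORE.{u, v} := by
  classical
  intro K _ _ _ _ hG X _ μ _ S T mS mT hS1 hS2 hS3 hT1 hT2 hT3 hconv ε hε
  have hSh : ∀ n, IsHom μ (S n) := fun n =>
    ⟨mS n, by filter_upwards [eventuallyEq_set.1 (hS1 n)] with x hx; exact hx.2 trivial,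
      fun a b => eventuallyEq_set.1 (hS2 n a b), fun a => eventuallyEq_set.1 (hS3 n a)⟩
  have hTh : IsHom μ T :=
    ⟨mT, by filter_upwards [eventuallyEq_set.1 hT1] with x hx; exact hx.2 trivial,
      fun a b => eventuallyEq_set.1 (hT2 a b), fun a => eventuallyEq_set.1 (hT3 a)⟩
  by_contra hn
  rw [not_eventually] at hn
  have hfr : ∃ᶠ n in atTop, ∃ a, ε < μ (symmDiff (S n a) (T a)) :=
    hn.mono fun n h => by push Not at h; exact h
  obtain ⟨b, E1, mE1, pE1, g1, g2⟩ := step1 hK μ S T hSh hTh hconv ε hε hfr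
  let D : ℕ → ℕ → Set X := fun j n =>
    {x | x ∈ E1 ∧ j ≤ n ∧ x ∈ S n (b j) ∧ ∀ m, j ≤ m → m < n → x ∉ S m (b j)}
  have mD : ∀ j n, MeasurableSet (D j n) := fun j n =>
    measurableSet_setOf.2 (mE1.mem.and ((measurable_const (a := (j ≤ n))).and
      ((mS n (b j)).mem.and (Measurable.forall fun m =>
        (measurable_const (a := (j ≤ m))).imp ((measurable_const (a := (m < n))).imp
          (mS m (b j)).mem.not)))))
  have uD : ∀ j n n' x, x ∈ D j n → x ∈ D j n' → n = n' := by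
    intro j n n' x h h'
    rcases lt_trichotomy n n' with c | c | c
    · exact absurd h.2.2.1 (h'.2.2.2 n h.2.1 c)
    · exact c
    · exact absurd h'.2.2.1 (h.2.2.2 n' h'.2.1 c)
  have eD : ∀ j x, x ∈ E1 → ∃ n, x ∈ D j n := by
    intro j x hx
    have h := g2 x hx j
    refine ⟨Nat.find h, hx, (Nat.find_spec h).1, (Nat.find_spec h).2, ?_⟩
    intro m hm hlt hmem
    exact Nat.find_min h hlt ⟨hm, hmem⟩
  let W : ℕ → Clopens K → Set X := fun j a => {x | ∃ n, x ∈ D j n ∧ x ∈ S n a}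
  have mW : ∀ j a, MeasurableSet (W j a) := fun j a =>
    measurableSet_setOf.2 (Measurable.exists fun n => (mD j n).mem.and (mS n a).mem)
  have hWadd : ∀ j U V, Disjoint U V →
      (μ (W j (U ⊔ V))).toReal = (μ (W j U)).toReal + (μ (W j V)).toReal := by
    intro j U V hUV
    refine add_aux μ _ _ _ (mW j U) (mW j V) ?_ ?_
    · filter_upwards [ae_all_iff.2 fun n => (hSh n).sup U V] with x hx
      constructor
      · rintro ⟨n, h1, h2⟩
        rcases (hx n).1 h2 with h | h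
        · exact Or.inl ⟨n, h1, h⟩
        · exact Or.inr ⟨n, h1, h⟩
      · rintro (⟨n, h1, h2⟩ | ⟨n, h1, h2⟩)
        · exact ⟨n, h1, (hx n).2 (Or.inl h2)⟩
        · exact ⟨n, h1, (hx n).2 (Or.inr h2)⟩
    · filter_upwards [ae_all_iff.2 fun n => (hSh n).disj hUV] with x hx
      rintro ⟨⟨n, h1, h2⟩, ⟨n', h1', h2'⟩⟩
      obtain rfl := uD j n n' x h1 h1'
      exact hx n ⟨h2, h2'⟩
  have hTadd : ∀ U V, Disjoint U V →
      (μ (E1 ∩ T (U ⊔ V))).toReal = (μ (E1 ∩ T U)).toReal + (μ (E1 ∩ T V)).toReal := by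
    intro U V hUV
    refine add_aux μ _ _ _ (mE1.inter (mT U)) (mE1.inter (mT V)) ?_ ?_
    · filter_upwards [hTh.sup U V] with x hx
      simp only [mem_inter_iff, hx]
      tauto
    · filter_upwards [hTh.disj hUV] with x hx
      rintro ⟨h1, h2⟩
      exact hx ⟨h1.2, h2.2⟩
  choose L hLpos hL using fun j => hX K (fun U => (μ (W j U)).toReal)
    (fun U => ENNReal.toReal_nonneg) (hWadd j)
  obtain ⟨L0, hL0pos, hL0⟩ := hX K (fun U => (μ (E1 ∩ T U)).toReal)
    (fun U => ENNReal.toReal_nonneg) hTadd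
  have hcv : ∀ U : Clopens K, Tendsto (fun j => L j (ind U)) atTop (𝓝 (L0 (ind U))) := by
    intro U
    simp only [hL, hL0]
    refine (ENNReal.tendsto_toReal (measure_ne_top _ _)).comp ?_
    refine tendsto_measure_of_ae_tendsto_indicator_of_isFiniteMeasure atTop
      (mE1.inter (mT U)) (fun j => mW j U) ?_
    filter_upwards [hconv U] with x hx
    obtain ⟨N, hN⟩ := eventually_atTop.1 hx
    refine eventually_atTop.2 ⟨N, fun j hj => ?_⟩
    constructor
    · rintro ⟨n, h1, h2⟩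
      exact ⟨h1.1, (hN n (hj.trans h1.2.1)).1 h2⟩
    · rintro ⟨h1, h2⟩
      obtain ⟨n, hn⟩ := eD j x h1
      exact ⟨n, hn, (hN n (le_trans hj hn.2.1)).2 h2⟩
  obtain ⟨Ψ, hΨ⟩ := hP K (fun J => (Finset.range (J + 1)).sup b)
  have hlim : Tendsto (fun n => Ψ (L n)) atTop (𝓝 (Ψ L0)) :=
    hG L L0 hLpos (hC K L L0 hLpos hL0pos hcv) Ψ
  have hlow : ∀ j, (μ E1).toReal ≤ Ψ (L j) := by
    intro j
    refine hΨ (L j) _ (eventually_atTop.2 ⟨j, fun J hJ => ?_⟩)
    rw [hL]
    refine ENNReal.toReal_mono (measure_ne_top _ _) (measure_mono_ae ?_)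
    have hle : b j ≤ (Finset.range (J + 1)).sup b :=
      Finset.le_sup (f := b) (Finset.mem_range.2 (by omega))
    filter_upwards [ae_all_iff.2 fun n => (hSh n).mono hle] with x hx hxE
    obtain ⟨n, hn⟩ := eD j x hxE
    exact ⟨n, hn, hx n hn.2.2.1⟩
  have hzero : ∀ s : Finset ℕ, ∀ᵐ x ∂μ, ¬ (x ∈ E1 ∧ x ∈ T (s.sup b)) := by
    intro s
    induction s using Finset.induction_on with
    | empty =>
      filter_upwards [hTh.bot] with x hx
      rintro ⟨_, h⟩
      exact hx (by simpa using h)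
    | insert i s his ih =>
      filter_upwards [ih, hTh.sup (b i) (s.sup b)] with x hx hx2
      rintro ⟨h1, h2⟩
      rw [Finset.sup_insert, hx2] at h2
      rcases h2 with h2 | h2
      · exact g1 x h1 i h2
      · exact hx ⟨h1, h2⟩
  have hup : Ψ L0 ≤ 0 := by
    have h := hΨ (-L0) 0 (Eventually.of_forall fun J => ?_)
    · rw [map_neg] at h
      linarith
    · have h0 : μ (E1 ∩ T ((Finset.range (J + 1)).sup b)) = 0 := by
        rw [measure_eq_zero_iff_ae_notMem]
        exact hzero _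
      show 0 ≤ -(L0 (ind _))
      rw [hL0, h0]
      simp
  have hfin : (μ E1).toReal ≤ Ψ L0 := ge_of_tendsto' hlim hlow
  have hpos : 0 < (μ E1).toReal := ENNReal.toReal_pos pE1.ne' (measure_ne_top _ _)
  linarith

end Pool.Agent.R342.GP
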