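import Pool.Agent.R342.GP.Stm

open MeasureTheory Filter Topology Set TopologicalSpace
open scoped ENNReal

namespace Pool.Agent.R342.GP

universe u

namespace ExtAux

theorem hb {E : Type u} [NormedAddCommGroup E] [NormedSpace ℝ E] {ι : Type u} (e : ι → E)
    (ν : ι → ℝ) (C : ℝ) (hC : 0 ≤ C)
    (h : ∀ (s : Finset ι) (v : ι → ℝ), |∑ a ∈ s, v a * ν a| ≤ C * ‖∑ a ∈ s, v a • e a‖) :
    ∃ L : StrongDual ℝ E, (∀ i, L (e i) = ν i) ∧ ∀ x, |L x| ≤ C * ‖x‖ := by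
  let T : (ι →₀ ℝ) →ₗ[ℝ] E := Finsupp.linearCombination ℝ e
  let N : (ι →₀ ℝ) →ₗ[ℝ] ℝ := Finsupp.linearCombination ℝ ν
  have hbd : ∀ v, |N v| ≤ C * ‖T v‖ := fun v => h v.support v
  have hker : LinearMap.ker T ≤ LinearMap.ker N := by
    intro v hv
    rw [LinearMap.mem_ker] at hv ⊢
    have h1 := hbd v
    rw [hv, norm_zero, mul_zero] at h1
    exact abs_nonpos_iff.1 h1
  let f : LinearMap.range T →ₗ[ℝ] ℝ :=
    ((LinearMap.ker T).liftQ N hker).comp T.quotKerEquivRange.symm.toLinearMap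
  have hf : ∀ (v : ι →₀ ℝ) (hv : T v ∈ LinearMap.range T), f ⟨T v, hv⟩ = N v := by
    intro v hv
    show ((LinearMap.ker T).liftQ N hker) (T.quotKerEquivRange.symm ⟨T v, hv⟩) = N v
    rw [LinearMap.quotKerEquivRange_symm_apply_image]
    exact Submodule.liftQ_apply _ _ _
  have hfb : ∀ y : LinearMap.range T, ‖f y‖ ≤ C * ‖y‖ := by
    intro y
    obtain ⟨v, hv⟩ := y.2
    have hmem : T v ∈ LinearMap.range T := ⟨v, rfl⟩
    have hy : y = ⟨T v, hmem⟩ := Subtype.ext hv.symm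
    rw [hy, hf v hmem, Real.norm_eq_abs]
    exact hbd v
  let F : StrongDual ℝ (LinearMap.range T) := f.mkContinuous C hfb
  have hFn : ‖F‖ ≤ C := f.mkContinuous_norm_le hC hfb
  obtain ⟨L, hL1, hL2⟩ := exists_extension_norm_eq (LinearMap.range T) F
  refine ⟨L, fun i => ?_, fun x => ?_⟩
  · have h1 : T (Finsupp.single i 1) = e i := by
      show Finsupp.linearCombination ℝ e (Finsupp.single i 1) = e i
      rw [Finsupp.linearCombination_single, one_smul]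
    have h2 : N (Finsupp.single i 1) = ν i := by
      show Finsupp.linearCombination ℝ ν (Finsupp.single i 1) = ν i
      rw [Finsupp.linearCombination_single, one_smul]
    have hmem : T (Finsupp.single i 1) ∈ LinearMap.range T := ⟨_, rfl⟩
    have h3 := hL1 ⟨T (Finsupp.single i 1), hmem⟩
    have h4 : F ⟨T (Finsupp.single i 1), hmem⟩ = N (Finsupp.single i 1) := hf _ hmem
    rw [h4, h2] at h3
    rw [← h1]
    exact h3
  · have h1 : ‖L x‖ ≤ ‖L‖ * ‖x‖ := L.le_opNorm x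
    rw [hL2] at h1
    rw [← Real.norm_eq_abs]
    exact h1.trans (mul_le_mul_of_nonneg_right hFn (norm_nonneg x))

end ExtAux

theorem ext (h : S_INEQ.{u}) : S_EXT.{u} := by
  intro K _ _ _ _ ν hν0 hνadd
  have hin := h K ν hν0 hνadd
  obtain ⟨L, hLind, hLb⟩ := ExtAux.hb (E := C(K, ℝ)) (ι := Clopens K) ind ν (ν ⊤) (hν0 ⊤) hin
  have htop : (ind (⊤ : Clopens K)) = (1 : C(K, ℝ)) := by
    ext x
    simp [ind]
  have hL1' : L 1 = ν ⊤ := by rw [← htop]; exact hLind ⊤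
  refine ⟨L, fun g hg => ?_, hLind⟩
  have hM : ‖‖g‖ • (1 : C(K, ℝ)) - g‖ ≤ ‖g‖ := by
    rw [ContinuousMap.norm_le _ (norm_nonneg g)]
    intro x
    have h1 : 0 ≤ g x := hg x
    have h2 : |g x| ≤ ‖g‖ := g.norm_coe_le_norm x
    have h3 : g x ≤ ‖g‖ := (le_abs_self _).trans h2
    have h4 : (‖g‖ • (1 : C(K, ℝ)) - g) x = ‖g‖ - g x := by simp
    rw [h4, Real.norm_of_nonneg (by linarith)]
    linarith
  have h5 : L (‖g‖ • (1 : C(K, ℝ)) - g) = ‖g‖ * ν ⊤ - L g := by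
    rw [map_sub, map_smul, hL1', smul_eq_mul]
  have h6 : L (‖g‖ • (1 : C(K, ℝ)) - g) ≤ ν ⊤ * ‖g‖ :=
    ((le_abs_self _).trans (hLb _)).trans (mul_le_mul_of_nonneg_left hM (hν0 ⊤))
  rw [h5] at h6
  show 0 ≤ L g
  linarith

end Pool.Agent.R342.GP
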