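import Mathlib
import Pool.Agent.R342.GP.Stm

/-!
# The measure algebra of a probability space and the final statement (MP_955413_lc)
-/

open MeasureTheory Filter Topology Set TopologicalSpace
open scoped ENNReal

namespace Pool.Agent.R342.GP

universe u v w

/-- The Boolean algebra of measurable sets. -/
abbrev MS (X : Type v) [MeasurableSpace X] : Type v := {s : Set X // MeasurableSet s}

/-- The ideal of null sets in the Boolean ring of measurable sets. -/
noncomputable def nullIdeal {X : Type v} [MeasurableSpace X] (μ : Measure X) :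
    Ideal (AsBoolRing (MS X)) where
  carrier := {s | μ ((ofBoolRing s : MS X) : Set X) = 0}
  zero_mem' := by
    show μ ((⊥ : MS X) : Set X) = 0
    simp
  add_mem' := by
    intro a b ha hb
    show μ ((ofBoolRing (a + b) : MS X) : Set X) = 0
    rw [ofBoolRing_add]
    refine measure_mono_null ?_ (measure_union_null ha hb)
    intro x hx
    rcases hx with hx | hx
    · exact Or.inl hx.1
    · exact Or.inr hx.1
  smul_mem' := by
    intro c a ha
    show μ ((ofBoolRing (c * a) : MS X) : Set X) = 0
    rw [ofBoolRing_mul]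
    refine measure_mono_null ?_ ha
    intro x hx
    exact hx.2

/-- The quotient ring of the Boolean ring of measurable sets by the null ideal is Boolean. -/
noncomputable instance {X : Type v} [MeasurableSpace X] (μ : Measure X) :
    BooleanRing (AsBoolRing (MS X) ⧸ nullIdeal μ) :=
  { (inferInstance : CommRing (AsBoolRing (MS X) ⧸ nullIdeal μ)) with
    isIdempotentElem := by
      intro a
      obtain ⟨s, rfl⟩ := Ideal.Quotient.mk_surjective a
      show _ * _ = _
      rw [← map_mul, BooleanRing.mul_self] }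

/-- The measure algebra of `μ`: measurable sets modulo null sets, as a Boolean algebra. -/
abbrev MAlg {X : Type v} [MeasurableSpace X] (μ : Measure X) : Type v :=
  AsBoolAlg (AsBoolRing (MS X) ⧸ nullIdeal μ)

/-- The class of a measurable set in the measure algebra. -/
noncomputable def cls {X : Type v} [MeasurableSpace X] (μ : Measure X) (s : MS X) : MAlg μ :=
  toBoolAlg (Ideal.Quotient.mk (nullIdeal μ) (toBoolRing s))

theorem cls_surj {X : Type v} [MeasurableSpace X] (μ : Measure X) (P : MAlg μ) :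
    ∃ s : MS X, cls μ s = P := by
  obtain ⟨s, hs⟩ := Ideal.Quotient.mk_surjective (ofBoolAlg P)
  refine ⟨ofBoolRing s, ?_⟩
  unfold cls
  rw [toBoolRing_ofBoolRing, hs]
  rfl

/-- A measurable set in the class `P`. -/
noncomputable def rep {X : Type v} [MeasurableSpace X] {μ : Measure X} (P : MAlg μ) : Set X :=
  ((cls_surj μ P).choose : Set X)

/-- The Frechet–Nikodym distance `μ (P ∆ Q)` on the measure algebra. -/
noncomputable def fdist {X : Type v} [MeasurableSpace X] {μ : Measure X} (P Q : MAlg μ) : ℝ≥0∞ :=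
  μ (symmDiff (rep P) (rep Q))

/-- Pointwise algebraic convergence of homomorphisms into the measure algebra:
`⋁ₙ ⋀_{m>n} φ_m(A) = ⋀ₙ ⋁_{m>n} φ_m(A) = φ(A)` for every `A`. -/
def PtAlgConv {X : Type v} [MeasurableSpace X] {μ : Measure X} {𝔸 : Type w} [BooleanAlgebra 𝔸]
    (φ : ℕ → BoundedLatticeHom 𝔸 (MAlg μ)) (φ₀ : BoundedLatticeHom 𝔸 (MAlg μ)) : Prop :=
  ∀ A : 𝔸, ∃ L U : ℕ → MAlg μ,
    (∀ n, IsGLB {P | ∃ m, n < m ∧ P = φ m A} (L n)) ∧
    (∀ n, IsLUB {P | ∃ m, n < m ∧ P = φ m A} (U n)) ∧
    IsLUB (Set.range L) (φ₀ A) ∧ IsGLB (Set.range U) (φ₀ A)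

/-- Uniform convergence of homomorphisms into the measure algebra. -/
def UnifConv {X : Type v} [MeasurableSpace X] {μ : Measure X} {𝔸 : Type w} [BooleanAlgebra 𝔸]
    (φ : ℕ → BoundedLatticeHom 𝔸 (MAlg μ)) (φ₀ : BoundedLatticeHom 𝔸 (MAlg μ)) : Prop :=
  Tendsto (fun n => ⨆ A, fdist (φ n A) (φ₀ A)) atTop (𝓝 0)

/-- FIN: the final statement.  `K` is the Stone space of the Boolean algebra `𝔸`, that is, a
compact Hausdorff totally disconnected space with an isomorphism of `𝔸` with the algebra of clopen
subsets of `K`. -/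
def S_FIN : Prop :=
  ∀ (𝔸 : Type w) [BooleanAlgebra 𝔸]
    (K : Type u) [TopologicalSpace K] [CompactSpace K] [T2Space K] [TotallyDisconnectedSpace K]
    (_ : 𝔸 ≃o Clopens K), PosGrothendieck K →
    ∀ (X : Type v) [MeasurableSpace X] (μ : Measure X) [IsProbabilityMeasure μ]
      (φ : ℕ → BoundedLatticeHom 𝔸 (MAlg μ)) (φ₀ : BoundedLatticeHom 𝔸 (MAlg μ)),
      PtAlgConv φ φ₀ → UnifConv φ φ₀

end Pool.Agent.R342.GP
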