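import Mathlib
import Pool.Agent.R342.GP.Malg

/-!
# GP-FIN: the final statement from CORE (helper551)
-/

open MeasureTheory Filter Topology Set TopologicalSpace
open scoped ENNReal

namespace Pool.Agent.R342.GP

universe u v w

namespace FinAux

variable {X : Type v} [MeasurableSpace X] {μ : Measure X}

theorem cls_eq_iff (s t : MS X) : cls μ s = cls μ t ↔ (s : Set X) =ᵐ[μ] (t : Set X) := by
  unfold cls
  rw [toBoolAlg_inj, Ideal.Quotient.eq, ← measure_symmDiff_eq_zero_iff]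
  show μ ((ofBoolRing (toBoolRing s - toBoolRing t) : MS X) : Set X) = 0 ↔ _
  rw [ofBoolRing_sub]
  exact Iff.rfl

theorem cls_inf (s t : MS X) : cls μ (s ⊓ t) = cls μ s ⊓ cls μ t := by
  unfold cls
  rw [toBoolRing_inf, map_mul]
  exact toBoolAlg_mul _ _

theorem cls_top : cls μ (⊤ : MS X) = ⊤ := by
  unfold cls
  rw [toBoolRing_top, map_one]
  exact toBoolAlg_one

theorem cls_compl (s : MS X) : cls μ sᶜ = (cls μ s)ᶜ := by
  have h1 : toBoolRing sᶜ = 1 + toBoolRing s := by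
    rw [← ofBoolRing_inj, ofBoolRing_add, ofBoolRing_one, ofBoolRing_toBoolRing,
      ofBoolRing_toBoolRing, top_symmDiff, hnot_eq_compl]
  rw [← ofBoolAlg_inj, ofBoolAlg_compl]
  unfold cls
  rw [h1, map_add, map_one]
  rfl

theorem cls_le_iff (s t : MS X) : cls μ s ≤ cls μ t ↔ (s : Set X) ≤ᵐ[μ] (t : Set X) := by
  rw [← inf_eq_left, ← cls_inf, cls_eq_iff]
  have : ((s ⊓ t : MS X) : Set X) = (s : Set X) ∩ t := rfl
  rw [this]
  constructor
  · intro h
    filter_upwards [h] with x hx hs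
    have h2 : ((s : Set X) ∩ t) x = (s : Set X) x := hx
    have h3 : ((s : Set X) ∩ t) x := by rw [h2]; exact hs
    exact h3.2
  · intro h
    filter_upwards [h] with x hx
    apply propext
    exact ⟨fun h1 => h1.1, fun h1 => ⟨h1, hx h1⟩⟩

/-- the chosen measurable set -/
noncomputable def rs (P : MAlg μ) : MS X := (cls_surj μ P).choose

theorem cls_rs (P : MAlg μ) : cls μ (rs P) = P := (cls_surj μ P).choose_spec

theorem rep_eq (P : MAlg μ) : rep P = (rs P : Set X) := rfl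

theorem rep_meas (P : MAlg μ) : MeasurableSet (rep P) := (rs P).2

theorem le_iff (P Q : MAlg μ) : P ≤ Q ↔ rep P ≤ᵐ[μ] rep Q := by
  rw [rep_eq, rep_eq, ← cls_le_iff, cls_rs, cls_rs]

theorem rep_cls (s : MS X) : rep (cls μ s) =ᵐ[μ] (s : Set X) := by
  rw [rep_eq, ← cls_eq_iff, cls_rs]

theorem rep_inf (P Q : MAlg μ) : rep (P ⊓ Q) =ᵐ[μ] (rep P ∩ rep Q : Set X) := by
  have h : P ⊓ Q = cls μ (rs P ⊓ rs Q) := by rw [cls_inf, cls_rs, cls_rs]
  rw [h]
  exact rep_cls _

theorem rep_compl (P : MAlg μ) : rep Pᶜ =ᵐ[μ] ((rep P)ᶜ : Set X) := by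
  have h : Pᶜ = cls μ (rs P)ᶜ := by rw [cls_compl, cls_rs]
  rw [h]
  exact rep_cls _

theorem rep_top : rep (⊤ : MAlg μ) =ᵐ[μ] (univ : Set X) := by
  rw [← cls_top]
  exact rep_cls _

theorem rep_lub (P : ℕ → MAlg μ) (Q : MAlg μ) (h : IsLUB (range P) Q) :
    rep Q =ᵐ[μ] (⋃ k, rep (P k) : Set X) := by
  apply Filter.EventuallyLE.antisymm
  · have hR : Q ≤ cls μ ⟨⋃ k, rep (P k), MeasurableSet.iUnion fun k => rep_meas _⟩ := by
      apply h.2
      rintro _ ⟨k, rfl⟩
      rw [← cls_rs (P k), cls_le_iff]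
      refine Eventually.of_forall fun x hx => ?_
      exact mem_iUnion.2 ⟨k, hx⟩
    rw [le_iff] at hR
    exact hR.trans (rep_cls _).le
  · have h1 : ∀ k, rep (P k) ≤ᵐ[μ] rep Q := fun k => (le_iff _ _).1 (h.1 ⟨k, rfl⟩)
    have h2 := eventually_countable_forall.2 h1
    filter_upwards [h2] with x hx hx2
    obtain ⟨k, hk⟩ := mem_iUnion.1 hx2
    exact hx k hk

theorem rep_glb (P : ℕ → MAlg μ) (Q : MAlg μ) (h : IsGLB (range P) Q) :
    rep Q =ᵐ[μ] (⋂ k, rep (P k) : Set X) := by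
  apply Filter.EventuallyLE.antisymm
  · have h1 : ∀ k, rep Q ≤ᵐ[μ] rep (P k) := fun k => (le_iff _ _).1 (h.1 ⟨k, rfl⟩)
    have h2 := eventually_countable_forall.2 h1
    filter_upwards [h2] with x hx hx2
    exact mem_iInter.2 fun k => hx k hx2
  · have hR : cls μ ⟨⋂ k, rep (P k), MeasurableSet.iInter fun k => rep_meas _⟩ ≤ Q := by
      apply h.2
      rintro _ ⟨k, rfl⟩
      rw [← cls_rs (P k), cls_le_iff]
      refine Eventually.of_forall fun x hx => ?_
      exact mem_iInter.1 hx k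
    rw [le_iff] at hR
    exact (rep_cls _).symm.le.trans hR

theorem set_range {β : Type*} (f : ℕ → β) (n : ℕ) :
    {P | ∃ m, n < m ∧ P = f m} = range (fun j => f (n + 1 + j)) := by
  ext P
  constructor
  · rintro ⟨m, hm, rfl⟩
    exact ⟨m - (n + 1), by show f (n + 1 + (m - (n + 1))) = f m; congr 1; omega⟩
  · rintro ⟨j, rfl⟩
    exact ⟨n + 1 + j, by omega, rfl⟩

end FinAux

open FinAux

theorem fin (h : S_CORE.{u, v}) : S_FIN.{u, v, w} := by
  intro 𝔸 _ K _ _ _ _ e hK X _ μ _ φ φ₀ hconv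
  have hcore := h K hK X μ (fun n a => rep (φ n (e.symm a))) (fun a => rep (φ₀ (e.symm a)))
    (fun n a => rep_meas _) (fun a => rep_meas _)
    (fun n => by
      show rep (φ n (e.symm ⊤)) =ᵐ[μ] univ
      rw [OrderIso.map_top, TopHomClass.map_top]; exact rep_top)
    (fun n a b => by
      show rep (φ n (e.symm (a ⊓ b))) =ᵐ[μ] _
      rw [OrderIso.map_inf, InfHomClass.map_inf]; exact rep_inf _ _)
    (fun n a => by
      show rep (φ n (e.symm aᶜ)) =ᵐ[μ] _
      rw [map_compl', map_compl']; exact rep_compl _)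
    (by
      show rep (φ₀ (e.symm ⊤)) =ᵐ[μ] univ
      rw [OrderIso.map_top, TopHomClass.map_top]; exact rep_top)
    (fun a b => by
      show rep (φ₀ (e.symm (a ⊓ b))) =ᵐ[μ] _
      rw [OrderIso.map_inf, InfHomClass.map_inf]; exact rep_inf _ _)
    (fun a => by
      show rep (φ₀ (e.symm aᶜ)) =ᵐ[μ] _
      rw [map_compl', map_compl']; exact rep_compl _)
    (fun a => by
      show ∀ᵐ x ∂μ, ∀ᶠ n in atTop, (x ∈ rep (φ n (e.symm a)) ↔ x ∈ rep (φ₀ (e.symm a)))
      obtain ⟨L, U, hL, hU, hLs, hUs⟩ := hconv (e.symm a)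
      set A := e.symm a
      have l1 : ∀ n, rep (L n) =ᵐ[μ] (⋂ j, rep (φ (n + 1 + j) A) : Set X) := by
        intro n
        have := hL n
        rw [set_range (fun m => φ m A) n] at this
        exact rep_glb _ _ this
      have u1 : ∀ n, rep (U n) =ᵐ[μ] (⋃ j, rep (φ (n + 1 + j) A) : Set X) := by
        intro n
        have := hU n
        rw [set_range (fun m => φ m A) n] at this
        exact rep_lub _ _ this
      have l2 := rep_lub _ _ hLs
      have u2 := rep_glb _ _ hUs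
      have l3 := eventually_countable_forall.2 l1
      have u3 := eventually_countable_forall.2 u1
      filter_upwards [l2, u2, l3, u3] with x a1 a2 a3 a4
      have b1 : x ∈ rep (φ₀ A) ↔ x ∈ ⋃ k, rep (L k) := Iff.of_eq a1
      have b2 : x ∈ rep (φ₀ A) ↔ x ∈ ⋂ k, rep (U k) := Iff.of_eq a2
      have b3 : ∀ n, x ∈ rep (L n) ↔ x ∈ ⋂ j, rep (φ (n + 1 + j) A) := fun n => Iff.of_eq (a3 n)
      have b4 : ∀ n, x ∈ rep (U n) ↔ x ∈ ⋃ j, rep (φ (n + 1 + j) A) := fun n => Iff.of_eq (a4 n)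
      by_cases hx : x ∈ rep (φ₀ A)
      · obtain ⟨n, hn⟩ := mem_iUnion.1 (b1.1 hx)
        have h5 := mem_iInter.1 ((b3 n).1 hn)
        filter_upwards [eventually_ge_atTop (n + 1)] with m hm
        have h6 := h5 (m - (n + 1))
        have e1 : n + 1 + (m - (n + 1)) = m := by omega
        rw [e1] at h6
        exact ⟨fun _ => hx, fun _ => h6⟩
      · have h5 : ¬ x ∈ ⋂ k, rep (U k) := fun h6 => hx (b2.2 h6)
        rw [mem_iInter] at h5
        push Not at h5
        obtain ⟨n, hn⟩ := h5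
        have h7 : x ∉ ⋃ j, rep (φ (n + 1 + j) A) := fun h8 => hn ((b4 n).2 h8)
        filter_upwards [eventually_ge_atTop (n + 1)] with m hm
        have e1 : n + 1 + (m - (n + 1)) = m := by omega
        refine ⟨fun h9 => absurd (mem_iUnion.2 ⟨m - (n + 1), ?_⟩) h7, fun h9 => absurd h9 hx⟩
        rw [e1]
        exact h9)
  unfold UnifConv
  rw [ENNReal.tendsto_nhds_zero]
  intro ε hε
  filter_upwards [hcore ε hε] with n hn
  apply iSup_le
  intro A
  have := hn (e A)
  simp only [OrderIso.symm_apply_apply] at this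
  exact this

end Pool.Agent.R342.GP
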