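import Pool.Agent.R342.GP.Stm

/-! GP-INEQ (helper451) -/

open MeasureTheory Filter Topology Set TopologicalSpace
open scoped ENNReal

namespace Pool.Agent.R342.GP

universe u v w

namespace Ineq

variable {K : Type u} [TopologicalSpace K]

lemma nu_split {ν : Clopens K → ℝ} (hadd : ∀ U V, Disjoint U V → ν (U ⊔ V) = ν U + ν V)
    (b c : Clopens K) : ν b = ν (b ⊓ c) + ν (b ⊓ cᶜ) := by
  have h1 : Disjoint (b ⊓ c) (b ⊓ cᶜ) :=
    Disjoint.mono inf_le_right inf_le_right disjoint_compl_right
  rw [← hadd _ _ h1, sup_inf_inf_compl]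

lemma nu_bot {ν : Clopens K → ℝ} (hadd : ∀ U V, Disjoint U V → ν (U ⊔ V) = ν U + ν V) :
    ν ⊥ = 0 := by
  have h := hadd ⊥ ⊥ disjoint_bot_left
  rw [sup_idem] at h
  linarith

open Classical in
/-- the atom -/
noncomputable def pp (s t : Finset (Clopens K)) : Clopens K :=
  t.inf id ⊓ (s \ t).inf (fun a => aᶜ)

open Classical in
lemma split {ν : Clopens K → ℝ} (hadd : ∀ U V, Disjoint U V → ν (U ⊔ V) = ν U + ν V)
    (s : Finset (Clopens K)) : ∀ b : Clopens K, ν b = ∑ t ∈ s.powerset, ν (b ⊓ pp s t) := by
  induction s using Finset.induction_on with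
  | empty =>
    intro b
    simp [pp]
  | insert c s hc ih =>
    intro b
    rw [Finset.sum_powerset_insert hc, nu_split hadd b c, ih (b ⊓ c), ih (b ⊓ cᶜ), add_comm]
    congr 1
    · apply Finset.sum_congr rfl
      intro t ht
      congr 1
      have hct : c ∉ t := fun h => hc (Finset.mem_powerset.mp ht h)
      unfold pp
      rw [Finset.insert_sdiff_of_notMem _ hct, Finset.inf_insert]
      ac_rfl
    · apply Finset.sum_congr rfl
      intro t ht
      congr 1
      have hct : c ∉ t := fun h => hc (Finset.mem_powerset.mp ht h)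
      unfold pp
      have h1 : insert c s \ insert c t = s \ t := by
        ext x
        simp only [Finset.mem_sdiff, Finset.mem_insert]
        constructor
        · rintro ⟨h2 | h2, h3⟩
          · exact absurd (Or.inl h2) h3
          · exact ⟨h2, fun h4 => h3 (Or.inr h4)⟩
        · rintro ⟨h2, h3⟩
          refine ⟨Or.inr h2, ?_⟩
          rintro (h4 | h4)
          · exact hc (h4 ▸ h2)
          · exact h3 h4
      rw [h1, Finset.inf_insert, id]
      ac_rfl

end Ineq

open Ineq

open Classical in
theorem ineq : S_INEQ.{u} := by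
  intro K _ _ _ _ ν hν hadd s v
  have hsum : ∀ a ∈ s, ν a = ∑ t ∈ s.powerset, (if a ∈ t then ν (pp s t) else 0) := by
    intro a ha
    rw [split hadd s a]
    apply Finset.sum_congr rfl
    intro t ht
    split_ifs with h
    · congr 1
      apply inf_eq_right.mpr
      exact le_trans inf_le_left (Finset.inf_le (f := id) h)
    · have h1 : pp s t ≤ aᶜ :=
        le_trans inf_le_right (Finset.inf_le (f := fun a => aᶜ) (Finset.mem_sdiff.mpr ⟨ha, h⟩))
      have h2 : a ⊓ pp s t = ⊥ := by
        rw [← disjoint_iff]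
        exact Disjoint.mono_right h1 disjoint_compl_right
      rw [h2, nu_bot hadd]
  have htop : ν ⊤ = ∑ t ∈ s.powerset, ν (pp s t) := by
    rw [split hadd s ⊤]
    simp
  have hmain : ∑ a ∈ s, v a * ν a
      = ∑ t ∈ s.powerset, ν (pp s t) * ∑ a ∈ s, (if a ∈ t then v a else 0) := by
    rw [Finset.sum_congr rfl (fun a ha => by rw [hsum a ha, Finset.mul_sum]), Finset.sum_comm]
    apply Finset.sum_congr rfl
    intro t _
    rw [Finset.mul_sum]
    apply Finset.sum_congr rfl
    intro a _
    split_ifs <;> ring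
  rw [hmain, htop, Finset.sum_mul]
  refine le_trans (Finset.abs_sum_le_sum_abs _ _) (Finset.sum_le_sum fun t ht => ?_)
  rw [abs_mul, abs_of_nonneg (hν _)]
  by_cases hne : ((pp s t : Clopens K) : Set K).Nonempty
  · obtain ⟨y, hy⟩ := hne
    apply mul_le_mul_of_nonneg_left _ (hν _)
    have h1 : (∑ a ∈ s, v a • ind a) y = ∑ a ∈ s, (if a ∈ t then v a else 0) := by
      rw [ContinuousMap.coe_sum, Finset.sum_apply]
      apply Finset.sum_congr rfl
      intro a ha
      rw [ContinuousMap.coe_smul, Pi.smul_apply, smul_eq_mul]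
      show v a * Set.indicator (a : Set K) (fun _ => (1 : ℝ)) y = _
      split_ifs with h
      · have h2 : pp s t ≤ a := le_trans inf_le_left (Finset.inf_le (f := id) h)
        have h3 : y ∈ (a : Set K) := h2 hy
        rw [Set.indicator_of_mem h3, mul_one]
      · have h2 : pp s t ≤ aᶜ :=
          le_trans inf_le_right (Finset.inf_le (f := fun a => aᶜ) (Finset.mem_sdiff.mpr ⟨ha, h⟩))
        have h3 : y ∈ ((aᶜ : Clopens K) : Set K) := h2 hy
        have h4 : y ∉ (a : Set K) := by
          rw [Clopens.coe_compl] at h3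
          exact h3
        rw [Set.indicator_of_notMem h4, mul_zero]
    rw [← h1, ← Real.norm_eq_abs]
    exact ContinuousMap.norm_coe_le_norm _ y
  · have h2 : pp s t = ⊥ := by
      apply SetLike.coe_injective
      rw [Set.not_nonempty_iff_eq_empty.mp hne]
      rfl
    rw [h2, nu_bot hadd]
    simp

end Pool.Agent.R342.GP
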