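import Pool.Agent.R342.GP.Stm

/-!
# MP_955413_lc: KL from AVG
-/

open MeasureTheory Filter Topology Set TopologicalSpace
open scoped ENNReal

namespace Pool.Agent.R342.GP

universe v

open Classical in
/-- The set of patterns of length `k` of the points of the sequence, different from the limit one. -/
noncomputable def klQ {X : Type v} (F : ℕ → ℕ → Set X) (G : ℕ → Set X) (j k : ℕ) (x : X) :
    Finset (Finset ℕ) :=
  (Finset.range k).powerset.filter
    (fun s => (∃ n, j ≤ n ∧ pat k (F n) x = s) ∧ s ≠ pat k G x)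

theorem kl_pat_mem_powerset {X : Type v} (k : ℕ) (G : ℕ → Set X) (x : X) :
    pat k G x ∈ (Finset.range k).powerset := by
  classical
  unfold pat
  exact Finset.mem_powerset.2 (Finset.filter_subset _ _)

theorem kl_pat_eq_iff {X : Type v} (k : ℕ) (G : ℕ → Set X) (x : X) (s : Finset ℕ) :
    pat k G x = s ↔ s ⊆ Finset.range k ∧ ∀ i ∈ Finset.range k, (x ∈ G i ↔ i ∈ s) := by
  classical
  constructor
  · rintro rfl
    refine ⟨Finset.mem_powerset.1 (kl_pat_mem_powerset k G x), ?_⟩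
    intro i hi
    unfold pat
    rw [Finset.mem_filter]
    exact ⟨fun h => ⟨hi, h⟩, fun h => h.2⟩
  · rintro ⟨h1, h2⟩
    ext i
    unfold pat
    rw [Finset.mem_filter]
    constructor
    · rintro ⟨hi, hx⟩
      exact (h2 i hi).1 hx
    · intro hi
      exact ⟨h1 hi, (h2 i (h1 hi)).2 hi⟩

theorem kl_meas_pat {X : Type v} [MeasurableSpace X] (k : ℕ) (G : ℕ → Set X)
    (hG : ∀ i, MeasurableSet (G i)) (s : Finset ℕ) : MeasurableSet {x | pat k G x = s} := by
  have e : {x | pat k G x = s} =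
      {x | s ⊆ Finset.range k} ∩ ⋂ i ∈ Finset.range k, {x | x ∈ G i ↔ i ∈ s} := by
    ext x
    simp only [mem_ofPred_eq, mem_inter_iff, mem_iInter]
    exact kl_pat_eq_iff k G x s
  rw [e]
  refine MeasurableSet.inter (MeasurableSet.const _) ?_
  refine Finset.measurableSet_biInter _ (fun i _ => ?_)
  by_cases hi : i ∈ s
  · have : {x | x ∈ G i ↔ i ∈ s} = G i := by
      ext x; simp [hi]
    rw [this]; exact hG i
  · have : {x | x ∈ G i ↔ i ∈ s} = (G i)ᶜ := by
      ext x; simp [hi]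
    rw [this]; exact (hG i).compl

theorem kl_mem_Q {X : Type v} (F : ℕ → ℕ → Set X) (G : ℕ → Set X) (j k : ℕ) (x : X)
    (s : Finset ℕ) :
    s ∈ klQ F G j k x ↔ (∃ n, j ≤ n ∧ pat k (F n) x = s) ∧ s ≠ pat k G x := by
  classical
  unfold klQ
  rw [Finset.mem_filter]
  constructor
  · exact fun h => h.2
  · intro h
    refine ⟨?_, h⟩
    obtain ⟨⟨n, _, rfl⟩, _⟩ := h
    exact kl_pat_mem_powerset _ _ _

theorem kl_meas_Q {X : Type v} [MeasurableSpace X] (F : ℕ → ℕ → Set X) (G : ℕ → Set X)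
    (hF : ∀ n i, MeasurableSet (F n i)) (hG : ∀ i, MeasurableSet (G i)) (j k : ℕ)
    (s : Finset ℕ) : MeasurableSet {x | s ∈ klQ F G j k x} := by
  have e : {x | s ∈ klQ F G j k x} =
      (⋃ n, {x | j ≤ n} ∩ {x | pat k (F n) x = s}) ∩ {x | pat k G x = s}ᶜ := by
    ext x
    simp only [mem_ofPred_eq, mem_inter_iff, mem_iUnion, mem_compl_iff]
    rw [kl_mem_Q]
    constructor
    · rintro ⟨h1, h2⟩
      exact ⟨h1, fun h => h2 h.symm⟩
    · rintro ⟨h1, h2⟩
      exact ⟨h1, fun h => h2 h.symm⟩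
  rw [e]
  refine MeasurableSet.inter ?_ (kl_meas_pat k G hG s).compl
  refine MeasurableSet.iUnion (fun n => ?_)
  exact (MeasurableSet.const _).inter (kl_meas_pat k (F n) (hF n) s)

theorem kl_meas_card {X : Type v} [MeasurableSpace X] (F : ℕ → ℕ → Set X) (G : ℕ → Set X)
    (hF : ∀ n i, MeasurableSet (F n i)) (hG : ∀ i, MeasurableSet (G i)) (j k : ℕ) :
    Measurable (fun x => (klQ F G j k x).card) := by
  classical
  have e : (fun x => (klQ F G j k x).card) =
      fun x => ∑ s ∈ (Finset.range k).powerset, if s ∈ klQ F G j k x then 1 else 0 := by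
    funext x
    rw [← Finset.card_filter]
    congr 1
    ext s
    rw [Finset.mem_filter]
    refine ⟨fun h => ⟨?_, h⟩, fun h => h.2⟩
    obtain ⟨⟨n, _, rfl⟩, _⟩ := (kl_mem_Q F G j k x s).1 h
    exact kl_pat_mem_powerset _ _ _
  rw [e]
  refine Finset.measurable_sum _ (fun s _ => ?_)
  exact Measurable.ite (kl_meas_Q F G hF hG j k s) measurable_const measurable_const

/-- The number of patterns different from the limit one is eventually large. -/
theorem kl_card_large {X : Type v} (F : ℕ → ℕ → Set X) (G : ℕ → Set X) (j m : ℕ) (x : X)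
    (h1 : ∀ i, ∀ᶠ n in atTop, (x ∈ F n i ↔ x ∈ G i))
    (h2 : ∃ᶠ n in atTop, ∃ i, ¬ (x ∈ F n i ↔ x ∈ G i)) :
    ∀ᶠ k in atTop, m ≤ (klQ F G j k x).card := by
  classical
  set f : ℕ → Set ℕ := fun n => {i | x ∈ F n i} with hf
  set g : Set ℕ := {i | x ∈ G i} with hg
  set Y : Set (Set ℕ) := f '' (Ici j) \ {g} with hY
  have hne : ∀ y : Set ℕ, y ≠ g → ∀ᶠ n in atTop, f n ≠ y := by
    intro y hy
    have : ∃ i, ¬ (i ∈ y ↔ i ∈ g) := by
      by_contra hcon
      push Not at hcon
      exact hy (Set.ext hcon)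
    obtain ⟨i, hi⟩ := this
    filter_upwards [h1 i] with n hn hfy
    apply hi
    rw [← hfy]
    exact hn
  have hYinf : Y.Infinite := by
    intro hfin
    have hev : ∀ᶠ n in atTop, ∀ y ∈ Y, f n ≠ y := by
      rw [hfin.eventually_all]
      intro y hy
      exact hne y (fun h => hy.2 h)
    obtain ⟨n, hn, hn2, hn3⟩ := (h2.and_eventually (hev.and (eventually_ge_atTop j))).exists
    obtain ⟨i, hi⟩ := hn
    refine hn2 (f n) ⟨⟨n, hn3, rfl⟩, ?_⟩ rfl
    intro hfg
    apply hi
    have : f n = g := hfg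
    have h3 : i ∈ f n ↔ i ∈ g := by rw [this]
    exact h3
  obtain ⟨T, hTY, hTc⟩ := hYinf.exists_subset_card_eq m
  -- the patterns of the elements of `T ∪ {g}` are eventually different
  set p : ℕ → Set ℕ → Finset ℕ := fun k y => (Finset.range k).filter (fun i => i ∈ y) with hp
  have hdiff : ∀ y y' : Set ℕ, y ≠ y' → ∀ᶠ k in atTop, p k y ≠ p k y' := by
    intro y y' hyy
    have : ∃ i, ¬ (i ∈ y ↔ i ∈ y') := by
      by_contra hcon
      push Not at hcon
      exact hyy (Set.ext hcon)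
    obtain ⟨i, hi⟩ := this
    filter_upwards [eventually_gt_atTop i] with k hk heq
    apply hi
    have h3 : i ∈ p k y ↔ i ∈ p k y' := by rw [heq]
    simp only [hp, Finset.mem_filter, Finset.mem_range] at h3
    constructor
    · intro h; exact (h3.1 ⟨hk, h⟩).2
    · intro h; exact (h3.2 ⟨hk, h⟩).2
  have hall : ∀ᶠ k in atTop, ∀ y ∈ T, ∀ y' ∈ insert g T, y ≠ y' → p k y ≠ p k y' := by
    rw [Filter.eventually_all_finset]
    intro y hy
    rw [Filter.eventually_all_finset]
    intro y' hy'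
    by_cases hyy : y = y'
    · exact Eventually.of_forall (fun k h => absurd hyy h)
    · filter_upwards [hdiff y y' hyy] with k hk _
      exact hk
  filter_upwards [hall] with k hk
  have hinj : Set.InjOn (p k) (T : Set (Set ℕ)) := by
    intro y hy y' hy' heq
    by_contra hyy
    exact hk y hy y' (Finset.mem_insert_of_mem hy') hyy heq
  have hcard : (T.image (p k)).card = m := by
    rw [Finset.card_image_of_injOn hinj, hTc]
  rw [← hcard]
  apply Finset.card_le_card
  intro s hs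
  obtain ⟨y, hyT, rfl⟩ := Finset.mem_image.1 hs
  rw [kl_mem_Q]
  have hyY : y ∈ Y := hTY hyT
  obtain ⟨⟨n, hn, hny⟩, hyg⟩ := hyY
  refine ⟨⟨n, hn, ?_⟩, ?_⟩
  · rw [← hny]
    simp only [hp, hf, pat, mem_ofPred_eq]
  · have h3 : p k y ≠ p k g := hk y hyT g (Finset.mem_insert_self _ _) (fun h => hyg h)
    have h4 : pat k G x = p k g := by
      simp only [hp, hg, pat, mem_ofPred_eq]
    rw [h4]
    exact h3

theorem kl (h : S_AVG.{v}) : S_KL.{v} := by
  intro X _ μ _ F G E hF hG hE hlim hfreq j δ hδ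
  classical
  -- the real number d
  have hmin_pos : 0 < min δ 1 := lt_min hδ zero_lt_one
  have hmin_ne : min δ 1 ≠ ⊤ := ne_top_of_le_ne_top ENNReal.one_ne_top (min_le_right _ _)
  set d : ℝ := (min δ 1).toReal with hd
  have hdpos : 0 < d := ENNReal.toReal_pos hmin_pos.ne' hmin_ne
  have hdδ : ENNReal.ofReal d ≤ δ := by
    rw [hd, ENNReal.ofReal_toReal hmin_ne]
    exact min_le_left _ _
  obtain ⟨r0, hr0⟩ := exists_nat_one_div_lt (show (0 : ℝ) < d / 4 by positivity)
  set r : ℕ := r0 + 1 with hr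
  have hrpos : 0 < r := Nat.succ_pos _
  have hr1 : 1 / (r : ℝ) < d / 4 := by
    rw [hr]; push_cast; exact hr0
  have hrr : (1 : ℝ) ≤ r := by exact_mod_cast hrpos
  have hrpos' : (0 : ℝ) < 1 / (r : ℝ) := by positivity
  obtain ⟨m, hm⟩ := exists_pow_lt_of_lt_one (show (0 : ℝ) < d / 4 by positivity)
    (show (1 - 1 / (r : ℝ)) < 1 by linarith)
  -- the bad sets
  set B : ℕ → Set X := fun l => E ∩ ⋃ k, {x | l ≤ k} ∩ {x | m ≤ (klQ F G j k x).card}ᶜ with hB
  have hcm : ∀ k, MeasurableSet {x | m ≤ (klQ F G j k x).card} := by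
    intro k
    exact measurableSet_le measurable_const (kl_meas_card F G hF hG j k)
  have hBm : ∀ l, MeasurableSet (B l) := by
    intro l
    refine hE.inter (MeasurableSet.iUnion (fun k => ?_))
    exact (MeasurableSet.const _).inter (hcm k).compl
  have hBanti : Antitone B := by
    intro a b hab x hx
    obtain ⟨hxE, hx⟩ := hx
    obtain ⟨k, hk1, hk2⟩ := mem_iUnion.1 hx
    refine ⟨hxE, mem_iUnion.2 ⟨k, ?_, hk2⟩⟩
    exact le_trans hab hk1
  have hBint : ⋂ l, B l = ∅ := by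
    rw [Set.eq_empty_iff_forall_notMem]
    intro x hx
    rw [mem_iInter] at hx
    have hxE : x ∈ E := (hx 0).1
    obtain ⟨l, hl⟩ := eventually_atTop.1 (kl_card_large F G j m x (hlim x hxE) (hfreq x hxE))
    obtain ⟨k, hk1, hk2⟩ := mem_iUnion.1 (hx l).2
    exact hk2 (hl k hk1)
  have hBt : Tendsto (fun l => μ (B l)) atTop (𝓝 0) := by
    have := tendsto_measure_iInter_atTop (μ := μ) (s := B)
      (fun l => (hBm l).nullMeasurableSet) hBanti ⟨0, measure_ne_top μ _⟩
    rw [hBint, measure_empty] at this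
    exact this
  have hd2 : (0 : ℝ≥0∞) < ENNReal.ofReal (d / 2) := ENNReal.ofReal_pos.2 (by positivity)
  obtain ⟨k, hk⟩ := (hBt.eventually (eventually_lt_nhds hd2)).exists
  set D : Set X := E ∩ {x | m ≤ (klQ F G j k x).card} with hD
  obtain ⟨A, hA⟩ := h X μ (Finset.range k).powerset (pat k G) (klQ F G j k) D m r
    (hE.inter (hcm k)) (fun s => kl_meas_pat k G hG s) (fun s => kl_meas_Q F G hF hG j k s)
    (fun x => kl_pat_mem_powerset k G x)
    (fun x s hs => by
      obtain ⟨⟨n, _, rfl⟩, _⟩ := (kl_mem_Q F G j k x s).1 hs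
      exact kl_pat_mem_powerset _ _ _)
    (fun x hx => hx.2) hrpos
  have hA' : (μ {x | pat k G x ∈ A}).toReal +
      (μ {x | x ∈ D ∧ Disjoint (klQ F G j k x) A}).toReal ≤ d / 2 := by
    linarith
  have hn1 : 0 ≤ (μ {x | pat k G x ∈ A}).toReal := ENNReal.toReal_nonneg
  have hn2 : 0 ≤ (μ {x | x ∈ D ∧ Disjoint (klQ F G j k x) A}).toReal := ENNReal.toReal_nonneg
  refine ⟨k, A, ?_, ?_⟩
  · refine le_trans ?_ hdδ
    rw [← ENNReal.ofReal_toReal (measure_ne_top μ {x | pat k G x ∈ A})]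
    exact ENNReal.ofReal_le_ofReal (by linarith)
  · have hsub : {x | x ∈ E ∧ ∀ n, j ≤ n → pat k (F n) x ∉ A} ⊆
        B k ∪ {x | x ∈ D ∧ Disjoint (klQ F G j k x) A} := by
      rintro x ⟨hxE, hx⟩
      by_cases hc : m ≤ (klQ F G j k x).card
      · right
        refine ⟨⟨hxE, hc⟩, ?_⟩
        rw [Finset.disjoint_left]
        intro s hs
        obtain ⟨⟨n, hn, rfl⟩, _⟩ := (kl_mem_Q F G j k x s).1 hs
        exact hx n hn
      · left
        exact ⟨hxE, mem_iUnion.2 ⟨k, le_refl k, hc⟩⟩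
    calc μ {x | x ∈ E ∧ ∀ n, j ≤ n → pat k (F n) x ∉ A}
        ≤ μ (B k ∪ {x | x ∈ D ∧ Disjoint (klQ F G j k x) A}) := measure_mono hsub
      _ ≤ μ (B k) + μ {x | x ∈ D ∧ Disjoint (klQ F G j k x) A} := measure_union_le _ _
      _ ≤ ENNReal.ofReal (d / 2) + ENNReal.ofReal (d / 2) := by
          refine add_le_add hk.le ?_
          rw [← ENNReal.ofReal_toReal (measure_ne_top μ {x | x ∈ D ∧ Disjoint (klQ F G j k x) A})]
          exact ENNReal.ofReal_le_ofReal (by linarith)
      _ = ENNReal.ofReal d := by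
          rw [← ENNReal.ofReal_add (by positivity) (by positivity)]
          congr 1
          ring
      _ ≤ δ := hdδ

end Pool.Agent.R342.GP
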