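import Pool.Agent.R342.GP.Stm

/-!
# MP_955413_lc, piece PSI: a functional on the dual that is a limit of evaluations
-/

open MeasureTheory Filter Topology Set TopologicalSpace
open scoped ENNReal

namespace Pool.Agent.R342.GP

universe u

theorem psi_norm_ind {K : Type u} [TopologicalSpace K] [CompactSpace K] (U : Clopens K) :
    ‖ind U‖ ≤ 1 := by
  classical
  rw [ContinuousMap.norm_le _ zero_le_one]
  intro x
  have h1 : ind U x = Set.indicator (U : Set K) (fun _ => (1 : ℝ)) x := rfl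
  rw [h1, Set.indicator_apply]
  split_ifs
  · rw [norm_one]
  · rw [norm_zero]
    exact zero_le_one

/-- **PSI.** -/
theorem psi : S_PSI.{u} := by
  intro K _ _ c
  have hbd : ∀ (L : StrongDual ℝ C(K, ℝ)) (J : ℕ), |L (ind (c J))| ≤ ‖L‖ := by
    intro L J
    have h1 := L.le_opNorm (ind (c J))
    rw [Real.norm_eq_abs] at h1
    exact h1.trans (mul_le_of_le_one_right (norm_nonneg _) (psi_norm_ind _))
  have hex : ∀ L : StrongDual ℝ C(K, ℝ), ∃ y ∈ Icc (-‖L‖) ‖L‖,
      Tendsto (fun J => L (ind (c J))) (hyperfilter ℕ : Filter ℕ) (𝓝 y) := by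
    intro L
    obtain ⟨y, hy, hy'⟩ := (isCompact_Icc (a := -‖L‖) (b := ‖L‖)).ultrafilter_le_nhds
      (Ultrafilter.map (fun J => L (ind (c J))) (hyperfilter ℕ)) (by
        rw [le_principal_iff, Ultrafilter.mem_coe, Ultrafilter.mem_map]
        refine Filter.mem_of_superset Filter.univ_mem fun J _ => ?_
        exact abs_le.1 (hbd L J))
    exact ⟨y, hy, hy'⟩
  choose y hy1 hy2 using hex
  have hadd : ∀ L M, y (L + M) = y L + y M := fun L M =>
    tendsto_nhds_unique (hy2 (L + M)) ((hy2 L).add (hy2 M))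
  have hsmul : ∀ (r : ℝ) L, y (r • L) = r • y L := fun r L =>
    tendsto_nhds_unique (hy2 (r • L)) ((hy2 L).const_smul r)
  refine ⟨LinearMap.mkContinuous ⟨⟨y, hadd⟩, hsmul⟩ 1 fun L => ?_, fun L r h => ?_⟩
  · rw [one_mul, Real.norm_eq_abs]
    exact abs_le.2 (hy1 L)
  · exact ge_of_tendsto (hy2 L) (h.filter_mono Nat.hyperfilter_le_atTop)

end Pool.Agent.R342.GP
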